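import Pool.Agent.H80.JD.Basic

/-!
# Board jd_modules, module V1
-/

set_option autoImplicit false

namespace Pool.Agent.H3.JD

open Finset Filter Topology Pool.Agent.H80.JD

theorem V1_card_zero {n : ℕ} (D : Fin n → Bool) (P : ℤ → Prop) :
    Nat.card {h : Fin n → Bool // P (ip h D)} =
      Nat.card {h : Fin n → Bool // P (ip h (zero n))} := by
  refine Nat.card_congr (Equiv.subtypeEquiv (xrEquiv D) (fun h => ?_))
  have h1 : ip ((xrEquiv D) h) (zero n) = ip h D := by
    have h2 : (xrEquiv D) h = xr h D := xr_comm D h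
    rw [h2, ← ip_eq_ip_xr_zero]
  rw [h1]

theorem V1_ip_compl {n : ℕ} (h : Fin n → Bool) :
    ip (xr (fun _ => true) h) (zero n) = - ip h (zero n) := by
  rw [ip_zero, ip_zero, ← Finset.sum_neg_distrib]
  refine Finset.sum_congr rfl (fun i _ => ?_)
  rw [xr_apply, sg_xor, sg_true]
  ring

theorem v1 : T_V1 := by
  intro n D K hK
  have hfirst : (Nat.card {h : Fin n → Bool // K < |((ip h (zero n) : ℤ) : ℝ)|} : ℝ) =
      (1 - pr n K) * 2 ^ n := by
    have h1 := card_add_card_not (fun h : Fin n → Bool => |((ip h (zero n) : ℤ) : ℝ)| ≤ K)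
    have h2 : Nat.card {h : Fin n → Bool // ¬ |((ip h (zero n) : ℤ) : ℝ)| ≤ K} =
        Nat.card {h : Fin n → Bool // K < |((ip h (zero n) : ℤ) : ℝ)|} := by
      simp only [not_le]
    rw [h2, card_rows] at h1
    have h3 : (Nat.card {h : Fin n → Bool // |((ip h (zero n) : ℤ) : ℝ)| ≤ K} : ℝ) +
        (Nat.card {h : Fin n → Bool // K < |((ip h (zero n) : ℤ) : ℝ)|} : ℝ) = 2 ^ n := by
      exact_mod_cast h1
    unfold pr
    have h4 : (2 : ℝ) ^ n ≠ 0 := by positivity
    rw [sub_mul, div_mul_cancel₀ _ h4]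
    linarith
  have hsecond : 2 * (Nat.card {h : Fin n → Bool // ((ip h (zero n) : ℤ) : ℝ) < -K} : ℝ) =
      (Nat.card {h : Fin n → Bool // K < |((ip h (zero n) : ℤ) : ℝ)|} : ℝ) := by
    have h1 : Nat.card {h : Fin n → Bool // ((ip h (zero n) : ℤ) : ℝ) < -K} =
        Nat.card {h : Fin n → Bool // K < ((ip h (zero n) : ℤ) : ℝ)} := by
      refine Nat.card_congr (Equiv.subtypeEquiv (xrEquiv (fun _ => true)) (fun h => ?_))
      have h2 : (xrEquiv (fun _ => true)) h = xr (fun _ => true) h := rfl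
      rw [h2, V1_ip_compl]
      push_cast
      exact ⟨fun h3 => by linarith, fun h3 => by linarith⟩
    have h2 : Nat.card {h : Fin n → Bool // K < |((ip h (zero n) : ℤ) : ℝ)|} =
        Nat.card {h : Fin n → Bool // ((ip h (zero n) : ℤ) : ℝ) < -K} +
        Nat.card {h : Fin n → Bool // K < ((ip h (zero n) : ℤ) : ℝ)} := by
      classical
      rw [← Nat.card_sum]
      refine Nat.card_congr ?_
      have h3 : ∀ h : Fin n → Bool, K < |((ip h (zero n) : ℤ) : ℝ)| ↔
          ((ip h (zero n) : ℤ) : ℝ) < -K ∨ K < ((ip h (zero n) : ℤ) : ℝ) := by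
        intro h
        rw [lt_abs]
        constructor
        · rintro (h4 | h4)
          · exact Or.inr h4
          · exact Or.inl (by linarith)
        · rintro (h4 | h4)
          · exact Or.inr (by linarith)
          · exact Or.inl h4
      refine (Equiv.subtypeEquivRight h3).trans (subtypeOrEquiv _ _ ?_)
      rw [Pi.disjoint_iff]
      intro h
      rw [Prop.disjoint_iff]
      rintro ⟨h4, h5⟩
      linarith
    rw [h2, ← h1]
    push_cast
    ring
  refine ⟨?_, ?_⟩
  · rw [V1_card_zero D (fun v => K < |((v : ℤ) : ℝ)|)]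
    exact hfirst
  · rw [V1_card_zero D (fun v => ((v : ℤ) : ℝ) < -K)]
    rw [hfirst] at hsecond
    linarith

end Pool.Agent.H3.JD
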